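import Pool.Agent.H188.LC.Main
import Pool.Graph.R_seed8.Results.MP_5d630e_co.SquareRoot

/-!
# Every binary word of length `n` has at least `c n` non-equivalent abelian squares

Write `F x` for the number of the other letters before the `(x + 1)`-st letter `b`; three points of
the path of the word in arithmetic progression with difference `(u, l)` are an abelian square of the
class `(u, l)` (`Pool.Agent.H188.LB.Tch`). If a scale `u` has no abelian square in a window, then
the second differences of `F` at scale `u` cannot change from negative to positive in the window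
(`t_pattern`), and two scales cannot have different signs (`t_link`). If there are few classes then
all untouched scales above the critical scale `g x` of a point `x` are convex (`lemA`). At scale
`g x` a positive proportion of the scales is touched near `x`, and a chord argument (`t_reg`,
`order`) shows that the abelian squares of the same scale recorded at two separated points have
different classes. A Vitali selection of the points then gives the linear bound (`main`).
-/

set_option autoImplicit false

namespace Pool.Agent.Results.MP_5d630e_co.LinearBound

/-- Parikh vector of a binary word (`true` = a, `false` = b). -/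
def parikh (u : List Bool) : ℕ × ℕ := (u.count true, u.count false)

/-- The Parikh vectors `P(u)` over all factors `uv` of `w` with `u, v` nonempty and
`P(u) = P(v)`: one for each class of equivalent abelian squares of `w`. -/
def sqClasses (w : List Bool) : Set (ℕ × ℕ) :=
  {P | ∃ u v : List Bool, u ≠ [] ∧ v ≠ [] ∧ (u ++ v) <:+: w ∧ parikh u = P ∧ parikh v = P}

/-- `MNL(n)`: the least number of non-equivalent abelian squares in a binary word of length `n`. -/
noncomputable def MNL (n : ℕ) : ℕ :=
  sInf {k | ∃ w : List Bool, w.length = n ∧ (sqClasses w).ncard = k}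

theorem finite_sq (w : List Bool) : (sqClasses w).Finite := SquareRoot.finite_sq w

theorem count_bound (w : List Bool) (b : Bool) :
    w.count b ≤ 53723 * (sqClasses w).ncard + 2 := by
  classical
  have hfin := finite_sq w
  obtain ⟨F, hF, hw⟩ := H188.LB.t_word w b
  have h := H188.LC.main hF (A := w.count b)
    (C := hfin.toFinset.image fun P : ℕ × ℕ =>
      if b then ((P.1 : ℤ), (P.2 : ℤ)) else ((P.2 : ℤ), (P.1 : ℤ))) (by
    intro c u l h1 h2 h3 h4
    obtain ⟨x, y, hx, hy, hi, k1, k2, k3, k4⟩ := hw c u l h1 h2 h3 h4
    rw [Finset.mem_image]
    refine ⟨parikh x, ?_, ?_⟩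
    · rw [Set.Finite.mem_toFinset]
      refine ⟨x, y, hx, hy, hi, rfl, ?_⟩
      cases b
      · simp only [Bool.not_false] at k2 k4
        refine Prod.ext ?_ ?_
        · show y.count true = x.count true
          omega
        · show y.count false = x.count false
          omega
      · simp only [Bool.not_true] at k2 k4
        refine Prod.ext ?_ ?_
        · show y.count true = x.count true
          omega
        · show y.count false = x.count false
          omega
    · cases b
      · simp only [Bool.not_false] at k2
        simp [parikh, k1, k2]
      · simp only [Bool.not_true] at k2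
        simp [parikh, k1, k2])
  have hcard : (hfin.toFinset.image fun P : ℕ × ℕ =>
      if b then ((P.1 : ℤ), (P.2 : ℤ)) else ((P.2 : ℤ), (P.1 : ℤ))).card ≤
      (sqClasses w).ncard := by
    refine Finset.card_image_le.trans ?_
    rw [Set.ncard_eq_toFinset_card _ hfin]
  omega

theorem word_bound (w : List Bool) : w.length ≤ 107446 * (sqClasses w).ncard + 4 := by
  have h1 := count_bound w true
  have h2 := count_bound w false
  have h3 := SquareRoot.tot w
  omega

theorem MNL_bound (n : ℕ) : n ≤ 107446 * MNL n + 4 := by
  have hne : {k | ∃ w : List Bool, w.length = n ∧ (sqClasses w).ncard = k}.Nonempty :=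
    ⟨_, List.replicate n true, by simp, rfl⟩
  obtain ⟨w, hw, hk⟩ := Nat.sInf_mem hne
  have := word_bound w
  rw [hk, hw] at this
  exact this

theorem MNL_le (n : ℕ) : MNL n ≤ n := by
  classical
  have h1 : MNL n ≤ (sqClasses (List.replicate n true)).ncard :=
    Nat.sInf_le ⟨List.replicate n true, by simp, rfl⟩
  refine h1.trans ?_
  have hsub : sqClasses (List.replicate n true) ⊆
      ((Finset.Icc 1 n).image (fun k : ℕ => (k, 0)) : Finset (ℕ × ℕ)) := by
    rintro P ⟨u, v, hu, _, hi, rfl, _⟩
    have hs : u.Sublist (List.replicate n true) :=
      ((List.prefix_append u v).isInfix.trans hi).sublist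
    obtain ⟨m, hm, rfl⟩ := List.sublist_replicate_iff.mp hs
    rw [Finset.mem_coe, Finset.mem_image]
    refine ⟨m, ?_, ?_⟩
    · rw [Finset.mem_Icc]
      refine ⟨?_, hm⟩
      rcases Nat.eq_zero_or_pos m with h | h
      · subst h
        exact absurd rfl hu
      · exact h
    · simp [parikh, List.count_replicate]
  have h2 := Set.ncard_le_ncard hsub (Finset.finite_toSet _)
  rw [Set.ncard_coe_finset] at h2
  refine h2.trans (Finset.card_image_le.trans ?_)
  simp

theorem theta : (fun n : ℕ => (MNL n : ℝ)) =Θ[Filter.atTop] fun n : ℕ => (n : ℝ) := by
  refine ⟨?_, ?_⟩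
  · refine Asymptotics.IsBigO.of_bound 1 (Filter.Eventually.of_forall fun n => ?_)
    rw [Real.norm_of_nonneg (Nat.cast_nonneg _), Real.norm_of_nonneg (Nat.cast_nonneg _), one_mul]
    exact_mod_cast MNL_le n
  · refine Asymptotics.IsBigO.of_bound 107450 (Filter.eventually_atTop.mpr ⟨5, fun n hn => ?_⟩)
    rw [Real.norm_of_nonneg (Nat.cast_nonneg _), Real.norm_of_nonneg (Nat.cast_nonneg _)]
    have h1 := MNL_bound n
    have h2 : n ≤ 107450 * MNL n := by
      have : 1 ≤ MNL n := by
        by_contra h
        have h0 : MNL n = 0 := by omega
        rw [h0] at h1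
        omega
      omega
    exact_mod_cast h2

/-- **`MNL(n)` has the exact order of growth `n`.** Every binary word of length `n` has at least
`(n - 4) / 107446` non-equivalent abelian squares; more precisely, if the letter `b` occurs
`N` times in `w` then `w` has at least `(N - 2) / 53723` non-equivalent abelian squares.
So `MNL(n) = Θ(n)`. -/
theorem result :
    (∀ (w : List Bool) (b : Bool), w.count b ≤ 53723 * (sqClasses w).ncard + 2) ∧
    (∀ w : List Bool, w.length ≤ 107446 * (sqClasses w).ncard + 4) ∧
    (∀ n : ℕ, n ≤ 107446 * MNL n + 4) ∧
    (fun n : ℕ => (MNL n : ℝ)) =Θ[Filter.atTop] (fun n : ℕ => (n : ℝ)) :=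
  ⟨count_bound, word_bound, MNL_bound, theta⟩

end Pool.Agent.Results.MP_5d630e_co.LinearBound
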